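import Pool.Agent.N754.GF.Stm

/-!
Project GF: an ultrafilter which avoids small sets.
-/

set_option autoImplicit false

open Filter

namespace Pool.Agent.N186.GF

open Pool.Agent.N754.GF

/-- small families of finite sets -/
def Sm {α : Type} (𝒰 : Ultrafilter α) (N : α → ℝ) {β : α → Type} (Z : ∀ t, Finset (β t)) : Prop :=
  ∀ ε : ℝ, 0 < ε → ∀ᶠ t in (𝒰 : Filter α), ((Z t).card : ℝ) ≤ ε * N t

open Classical in
theorem sm_union {α : Type} {𝒰 : Ultrafilter α} {N : α → ℝ} {β : α → Type}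
    {Z Z' : ∀ t, Finset (β t)} (h : Sm 𝒰 N Z) (h' : Sm 𝒰 N Z') :
    Sm 𝒰 N (fun t => Z t ∪ Z' t) := by
  intro ε hε
  filter_upwards [h (ε / 2) (by positivity), h' (ε / 2) (by positivity)] with t h1 h2
  have h3 : ((Z t ∪ Z' t).card : ℝ) ≤ (Z t).card + (Z' t).card := by
    exact_mod_cast Finset.card_union_le _ _
  linarith

open Classical in
/-- the filter of the sets which contain all members of `B` outside of a small family -/
def fil {α : Type} (𝒰 : Ultrafilter α) (N : α → ℝ) (hN : ∀ᶠ t in (𝒰 : Filter α), 0 ≤ N t)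
    {β : α → Type} (B : ∀ t, Finset (β t)) : Filter (Σ t, β t) where
  sets := {S | ∃ T ∈ 𝒰, ∃ Z : ∀ t, Finset (β t), Sm 𝒰 N Z ∧
    ∀ x : Σ t, β t, x.1 ∈ T → x.2 ∈ B x.1 → x.2 ∉ Z x.1 → x ∈ S}
  univ_sets := ⟨Set.univ, univ_mem, fun _ => ∅, fun ε hε => by
    filter_upwards [hN] with t ht
    simpa using mul_nonneg hε.le ht, fun _ _ _ _ => Set.mem_univ _⟩
  sets_of_superset := by
    rintro S S' ⟨T, hT, Z, hZ, h⟩ hS
    exact ⟨T, hT, Z, hZ, fun x h1 h2 h3 => hS (h x h1 h2 h3)⟩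
  inter_sets := by
    rintro S S' ⟨T, hT, Z, hZ, h⟩ ⟨T', hT', Z', hZ', h'⟩
    refine ⟨T ∩ T', inter_mem hT hT', fun t => Z t ∪ Z' t, sm_union hZ hZ', fun x h1 h2 h3 => ?_⟩
    rw [Finset.mem_union, not_or] at h3
    exact ⟨h x h1.1 h2 h3.1, h' x h1.2 h2 h3.2⟩

theorem uf : S_UF := by
  intro α 𝒰 N β B hN hB
  push Not at hB
  obtain ⟨ε, hε, hB⟩ := hB
  have hB' : ∀ᶠ t in (𝒰 : Filter α), ε * N t < ((B t).card : ℝ) := hB
  have hne : (fil 𝒰 N hN B).NeBot := by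
    rw [neBot_iff]
    intro hbot
    have h0 : (∅ : Set (Σ t, β t)) ∈ fil 𝒰 N hN B := by rw [hbot]; exact mem_bot
    obtain ⟨T, hT, Z, hZ, h⟩ := h0
    have hT' : ∀ᶠ t in (𝒰 : Filter α), t ∈ T := hT
    obtain ⟨t, ht1, ht2, ht3, ht4⟩ := (hT'.and (hB'.and ((hZ ε hε).and hN))).exists
    have hlt : ((Z t).card : ℝ) < (B t).card := lt_of_le_of_lt ht3 ht2
    have hlt' : (Z t).card < (B t).card := by exact_mod_cast hlt
    obtain ⟨b, hb, hbZ⟩ := Finset.exists_mem_notMem_of_card_lt_card hlt'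
    exact h ⟨t, b⟩ ht1 hb hbZ
  refine ⟨Ultrafilter.of (fil 𝒰 N hN B), ?_, fun T hT => ?_, fun Z hZ => ?_⟩
  · refine Ultrafilter.of_le _ ⟨Set.univ, univ_mem, fun _ => ∅, ?_, fun x _ h _ => h⟩
    intro δ hδ
    filter_upwards [hN] with t ht
    simpa using mul_nonneg hδ.le ht
  · refine Ultrafilter.of_le _ ⟨T, hT, fun _ => ∅, ?_, fun x h _ _ => h⟩
    intro δ hδ
    filter_upwards [hN] with t ht
    simpa using mul_nonneg hδ.le ht
  · exact Ultrafilter.of_le _ ⟨Set.univ, univ_mem, Z, hZ, fun x _ _ h => h⟩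

end Pool.Agent.N186.GF
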